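import Mathlib

set_option autoImplicit false

namespace Pool.Agent.Results.MP_fe8c60_co.Unbounded

open SimpleGraph

/-- The planar square grid: points of `ℤ²` at Euclidean distance `1` are adjacent. -/
def grid : SimpleGraph (ℤ × ℤ) where
  Adj p q := (p.1 - q.1) ^ 2 + (p.2 - q.2) ^ 2 = 1
  symm := ⟨fun _ _ h => by linarith [h]⟩
  loopless := ⟨fun _ h => by simp at h⟩

/-- A grid path: a path in the square grid. -/
structure GridPath where
  s : ℤ × ℤ
  t : ℤ × ℤ
  w : grid.Walk s t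
  isPath : w.IsPath

/-- A step of the grid is horizontal when its two ends have the same second coordinate
(otherwise it is vertical). -/
def horizontal (d : grid.Dart) : Bool := decide (d.fst.2 = d.snd.2)

/-- The number of consecutive pairs of steps of which one is horizontal and the other vertical. -/
def switches (l : List grid.Dart) : ℕ :=
  (l.zip l.tail).countP (fun x => horizontal x.1 != horizontal x.2)

/-- The number of bends of a grid path. -/
def bends (P : GridPath) : ℕ := switches P.w.darts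

/-- `G` has a `k`-bend EPG representation. -/
def KBend {V : Type} (G : SimpleGraph V) (k : ℕ) : Prop :=
  ∃ P : V → GridPath, (∀ v, bends (P v) ≤ k) ∧
    ∀ u v, u ≠ v → (G.Adj u v ↔ ∃ e, e ∈ (P u).w.edges ∧ e ∈ (P v).w.edges)

/-- No induced subgraph isomorphic to `K_{1,3}`. -/
def ClawFree {V : Type} (G : SimpleGraph V) : Prop :=
  IsEmpty (completeBipartiteGraph (Fin 1) (Fin 3) ↪g G)

lemma adj_cases {p q : ℤ × ℤ} (h : grid.Adj p q) :
    (p.2 = q.2 ∧ (q.1 = p.1 + 1 ∨ p.1 = q.1 + 1)) ∨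
      (p.1 = q.1 ∧ (q.2 = p.2 + 1 ∨ p.2 = q.2 + 1)) := by
  have h' : (p.1 - q.1) ^ 2 + (p.2 - q.2) ^ 2 = 1 := h
  generalize ha : p.1 - q.1 = a at h'
  generalize hb : p.2 - q.2 = b at h'
  have h1 : -1 ≤ a := by nlinarith [sq_nonneg b, sq_nonneg (a + 1)]
  have h2 : a ≤ 1 := by nlinarith [sq_nonneg b, sq_nonneg (a - 1)]
  have h3 : -1 ≤ b := by nlinarith [sq_nonneg a, sq_nonneg (b + 1)]
  have h4 : b ≤ 1 := by nlinarith [sq_nonneg a, sq_nonneg (b - 1)]
  interval_cases a <;> interval_cases b <;> omega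

def key (d : grid.Dart) : ℤ ×ₗ ℤ :=
  if d.fst.2 = d.snd.2 then toLex (2 * d.fst.2, min d.fst.1 d.snd.1)
  else toLex (2 * d.fst.1 + 1, min d.fst.2 d.snd.2)

lemma key_eq_iff (d d' : grid.Dart) : key d = key d' ↔ d.edge = d'.edge := by
  obtain ⟨⟨⟨a, b⟩, ⟨c, e⟩⟩, h⟩ := d
  obtain ⟨⟨⟨a', b'⟩, ⟨c', e'⟩⟩, h'⟩ := d'
  have h1 := adj_cases h
  have h2 := adj_cases h'
  simp only [key, Dart.edge, Sym2.eq_iff, Prod.mk.injEq] at h1 h2 ⊢
  split_ifs <;> simp only [toLex_inj, Prod.mk.injEq] <;> omega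

lemma insert_conn (Z : Set (ℤ ×ₗ ℤ)) (hZ : Z.OrdConnected) (a b c : ℤ)
    (hb : toLex (a, b) ∈ Z) (hc : c ≤ b + 1 ∧ b ≤ c + 1) :
    (insert (toLex (a, c)) Z).OrdConnected := by
  refine ⟨?_⟩
  intro x hx y hy z hz
  obtain ⟨z1, z2⟩ := z
  obtain ⟨hz1, hz2⟩ := hz
  by_cases hzc : (z1, z2) = (a, c)
  · left; exact congrArg toLex hzc
  right
  have hzc' : ¬ (z1 = a ∧ z2 = c) := by simpa using hzc
  have lo : x = toLex (a, c) → toLex (a, b) ≤ toLex (z1, z2) := by
    rintro rfl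
    have := Prod.Lex.toLex_le_toLex.1 hz1
    apply Prod.Lex.toLex_le_toLex.2
    simp only at this ⊢
    omega
  have hi : y = toLex (a, c) → toLex (z1, z2) ≤ toLex (a, b) := by
    rintro rfl
    have := Prod.Lex.toLex_le_toLex.1 hz2
    apply Prod.Lex.toLex_le_toLex.2
    simp only at this ⊢
    omega
  rcases hx with hx | hx <;> rcases hy with hy | hy
  · exact hZ.out hb hb ⟨lo hx, hi hy⟩
  · exact hZ.out hb hy ⟨lo hx, hz2⟩
  · exact hZ.out hx hb ⟨hz1, hi hy⟩
  · exact hZ.out hx hy ⟨hz1, hz2⟩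

lemma step_conn (Z : Set (ℤ ×ₗ ℤ)) (hZ : Z.OrdConnected) (d d' : grid.Dart)
    (hd : grid.DartAdj d d') (hh : horizontal d = horizontal d') (hk : key d' ∈ Z) :
    (insert (key d) Z).OrdConnected := by
  obtain ⟨⟨⟨a, b⟩, ⟨c, e⟩⟩, h⟩ := d
  obtain ⟨⟨⟨a', b'⟩, ⟨c', e'⟩⟩, h'⟩ := d'
  have h1 := adj_cases h
  have h2 := adj_cases h'
  simp only [DartAdj, Prod.mk.injEq] at hd
  simp only [horizontal, decide_eq_decide] at hh
  obtain ⟨rfl, rfl⟩ := hd
  simp only [key] at hk h1 h2 ⊢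
  by_cases hb : b = e
  · have hb' : e = e' := hh.1 hb
    rw [if_pos hb'] at hk
    rw [if_pos hb, hb]
    exact insert_conn Z hZ _ _ _ hk (by omega)
  · have hb' : ¬ e = e' := fun x => hb (hh.2 x)
    rw [if_neg hb'] at hk
    rw [if_neg hb, show a = c by omega]
    exact insert_conn Z hZ _ _ _ hk (by omega)

lemma segs (l : List grid.Dart) (d : grid.Dart) (hl : List.IsChain grid.DartAdj (d :: l)) :
    ∃ Z : ℕ → Set (ℤ ×ₗ ℤ), (∀ j, (Z j).OrdConnected) ∧
      (∀ j, switches (d :: l) < j → Z j = ∅) ∧ key d ∈ Z (switches (d :: l)) ∧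
      ∀ x, (∃ j, x ∈ Z j) ↔ ∃ d' ∈ d :: l, key d' = x := by
  induction l generalizing d with
  | nil =>
    refine ⟨fun j => if j = 0 then {key d} else ∅, ?_, ?_, ?_, ?_⟩
    · intro j; dsimp only; split_ifs
      · exact Set.ordConnected_singleton
      · exact Set.ordConnected_empty
    · intro j hj; dsimp only; rw [if_neg (by omega)]
    · simp [switches]
    · intro x
      constructor
      · rintro ⟨j, hj⟩
        dsimp only at hj
        split_ifs at hj
        · exact ⟨d, by simp, hj.symm⟩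
        · exact hj.elim
      · rintro ⟨d', hd', rfl⟩
        rw [List.mem_singleton.1 hd']
        exact ⟨0, by simp⟩
  | cons d' l ih =>
    rw [List.isChain_cons_cons] at hl
    obtain ⟨Z, h1, h2, h3, h4⟩ := ih d' hl.2
    have hs : switches (d :: d' :: l) =
        switches (d' :: l) + if horizontal d = horizontal d' then 0 else 1 := by
      simp only [switches, List.tail_cons, List.zip_cons_cons, List.countP_cons]
      by_cases hh : horizontal d = horizontal d' <;> simp [hh]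
    refine ⟨fun j => if j = switches (d :: d' :: l) then insert (key d) (Z j) else Z j,
      ?_, ?_, ?_, ?_⟩
    · intro j; dsimp only; split_ifs with hj
      · by_cases hh : horizontal d = horizontal d'
        · rw [if_pos hh, add_zero] at hs
          exact step_conn _ (h1 j) d d' hl.1 hh (by rw [hj, hs]; exact h3)
        · rw [if_neg hh] at hs
          rw [h2 j (by omega)]
          simpa using Set.ordConnected_singleton
      · exact h1 j
    · intro j hj; dsimp only; rw [if_neg (by omega)]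
      exact h2 j (by omega)
    · simp
    · intro x
      constructor
      · rintro ⟨j, hj⟩
        dsimp only at hj
        have : x = key d ∨ x ∈ Z j := by
          split_ifs at hj
          · exact hj
          · exact Or.inr hj
        rcases this with rfl | hx
        · exact ⟨d, by simp, rfl⟩
        · obtain ⟨e, he, rfl⟩ := (h4 x).1 ⟨j, hx⟩
          exact ⟨e, List.mem_cons_of_mem _ he, rfl⟩
      · rintro ⟨e, he, rfl⟩
        rcases List.mem_cons.1 he with rfl | he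
        · exact ⟨switches (e :: d' :: l), by simp⟩
        · obtain ⟨j, hj⟩ := (h4 _).2 ⟨e, he, rfl⟩
          refine ⟨j, ?_⟩
          dsimp only; split_ifs
          · exact Or.inr hj
          · exact hj

lemma path_segs (P : GridPath) (k : ℕ) (hk : bends P ≤ k) :
    ∃ Z : Fin (k + 1) → Set (ℤ ×ₗ ℤ), (∀ j, (Z j).OrdConnected) ∧
      ∀ x, (∃ j, x ∈ Z j) ↔ ∃ d ∈ P.w.darts, key d = x := by
  have hc := P.w.isChain_dartAdj_darts
  unfold bends at hk
  generalize P.w.darts = l at hk hc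
  cases l with
  | nil => exact ⟨fun _ => ∅, fun _ => Set.ordConnected_empty, by simp⟩
  | cons d l =>
    obtain ⟨Z, h1, h2, -, h4⟩ := segs l d hc
    refine ⟨fun j => Z j, fun j => h1 j, fun x => ?_⟩
    rw [← h4]
    constructor
    · rintro ⟨j, hj⟩; exact ⟨j, hj⟩
    · rintro ⟨j, hj⟩
      have : j < k + 1 := by
        by_contra h
        rw [h2 j (by omega)] at hj
        exact hj
      exact ⟨⟨j, this⟩, hj⟩

lemma chain_eq {L I : Type} [LinearOrder L] [Fintype I] (Y : I → Set L) (X X' : Set L)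
    (h : {i | ∃ u ∈ X, ∃ v ∈ Y i, u ≤ v}.ncard = {i | ∃ u ∈ X', ∃ v ∈ Y i, u ≤ v}.ncard) :
    {i | ∃ u ∈ X, ∃ v ∈ Y i, u ≤ v} = {i | ∃ u ∈ X', ∃ v ∈ Y i, u ≤ v} := by
  by_cases h1 : {i | ∃ u ∈ X, ∃ v ∈ Y i, u ≤ v} ⊆ {i | ∃ u ∈ X', ∃ v ∈ Y i, u ≤ v}
  · exact Set.eq_of_subset_of_ncard_le h1 h.ge (Set.toFinite _)
  · refine (Set.eq_of_subset_of_ncard_le ?_ h.le (Set.toFinite _)).symm
    rw [Set.not_subset] at h1
    obtain ⟨i, ⟨u, hu, v, hv, huv⟩, hi⟩ := h1
    rintro i' ⟨u', hu', v', hv', huv'⟩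
    have : v < u' := by
      by_contra hc
      exact hi ⟨u', hu', v, hv, not_lt.1 hc⟩
    exact ⟨u, hu, v', hv', huv.trans (this.le.trans huv')⟩

lemma meet_iff {L : Type} [LinearOrder L] (X Y : Set L) (hX : X.OrdConnected)
    (hY : Y.OrdConnected) :
    (∃ x, x ∈ X ∧ x ∈ Y) ↔ (∃ u ∈ X, ∃ v ∈ Y, u ≤ v) ∧ (∃ u ∈ X, ∃ v ∈ Y, v ≤ u) := by
  constructor
  · rintro ⟨x, h1, h2⟩
    exact ⟨⟨x, h1, x, h2, le_rfl⟩, ⟨x, h1, x, h2, le_rfl⟩⟩
  · rintro ⟨⟨u, hu, v, hv, huv⟩, ⟨u', hu', v', hv', huv'⟩⟩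
    rcases le_total v u' with h | h
    · exact ⟨v, hX.out hu hu' ⟨huv, h⟩, hv⟩
    · exact ⟨u', hu', hY.out hv' hv ⟨huv', h⟩⟩

lemma count {L : Type} [LinearOrder L] (m t : ℕ) (X : Finset (Fin m) → Fin t → Set L)
    (Y : Fin m → Fin t → Set L) (hX : ∀ S j, (X S j).OrdConnected)
    (hY : ∀ a i, (Y a i).OrdConnected)
    (h : ∀ S a, a ∈ S ↔ ∃ j i x, x ∈ X S j ∧ x ∈ Y a i) :
    2 ^ m ≤ (m * t + 1) ^ (2 * t) := by
  let Y' : Fin m × Fin t → Set L := fun p => Y p.1 p.2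
  have hb : ∀ s : Set (Fin m × Fin t), s.ncard < m * t + 1 := fun s => by
    have := Set.ncard_le_card s
    simp only [Nat.card_eq_fintype_card, Fintype.card_prod, Fintype.card_fin] at this
    omega
  let f : Finset (Fin m) → (Fin t → Fin (m * t + 1) × Fin (m * t + 1)) := fun S j =>
    (⟨{i | ∃ u ∈ X S j, ∃ v ∈ Y' i, u ≤ v}.ncard, hb _⟩,
     ⟨{i | ∃ u ∈ X S j, ∃ v ∈ Y' i, v ≤ u}.ncard, hb _⟩)
  have key : ∀ S S', f S = f S' → S ⊆ S' := by
    intro S S' hf a ha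
    obtain ⟨j, i, hx⟩ := (h S a).1 ha
    have e := congrFun hf j
    simp only [f, Prod.mk.injEq, Fin.mk.injEq] at e
    have e1 := chain_eq Y' (X S j) (X S' j) e.1
    have e2 := chain_eq (L := Lᵒᵈ) Y' (X S j) (X S' j) e.2
    rw [meet_iff _ _ (hX S j) (hY a i)] at hx
    refine (h S' a).2 ⟨j, i, (meet_iff _ _ (hX S' j) (hY a i)).2 ⟨?_, ?_⟩⟩
    · exact (Set.ext_iff.1 e1 (a, i)).1 hx.1
    · exact (Set.ext_iff.1 e2 (a, i)).1 hx.2
  have hinj : Function.Injective f := fun S S' e =>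
    Finset.Subset.antisymm (key S S' e) (key S' S e.symm)
  have := Fintype.card_le_of_injective f hinj
  simp only [Fintype.card_finset, Fintype.card_fin, Fintype.card_pi, Fintype.card_prod,
    Finset.prod_const, Finset.card_univ] at this
  rwa [← sq, ← pow_mul] at this

lemma big (t : ℕ) : ∃ m, (m * t + 1) ^ (2 * t) < 2 ^ m := by
  have h := tendsto_pow_const_div_const_pow_of_one_lt (2 * t) (show (1 : ℝ) < 2 by norm_num)
  have hp : (0 : ℝ) < 1 / ((t : ℝ) + 1) ^ (2 * t) := by positivity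
  obtain ⟨m, hm, hm1⟩ := ((h.eventually (gt_mem_nhds hp)).and (Filter.eventually_ge_atTop 1)).exists
  refine ⟨m, ?_⟩
  rw [div_lt_div_iff₀ (by positivity) (by positivity), one_mul, ← mul_pow] at hm
  have h2 : (m * t + 1) ^ (2 * t) ≤ (m * (t + 1)) ^ (2 * t) :=
    Nat.pow_le_pow_left (by nlinarith) _
  have h3 : (m * (t + 1)) ^ (2 * t) < 2 ^ m := by exact_mod_cast hm
  exact h2.trans_lt h3

/-- Two cliques, the points and the subsets of an `m`-set, joined by membership. -/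
def G (m : ℕ) : SimpleGraph (Fin m ⊕ Finset (Fin m)) where
  Adj
    | Sum.inl a, Sum.inl b => a ≠ b
    | Sum.inl a, Sum.inr S => a ∈ S
    | Sum.inr S, Sum.inl a => a ∈ S
    | Sum.inr S, Sum.inr T => S ≠ T
  symm := ⟨by rintro (a | a) (b | b) h <;> first | exact h | exact h.symm⟩
  loopless := ⟨by rintro (a | a) h <;> exact h rfl⟩

lemma G_claw (m : ℕ) : ClawFree (G m) := by
  refine ⟨fun f => ?_⟩
  have h : ∀ i j : Fin 3, i ≠ j → (f (Sum.inr i)).isLeft ≠ (f (Sum.inr j)).isLeft := by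
    intro i j hij
    have h1 : ¬ (G m).Adj (f (Sum.inr i)) (f (Sum.inr j)) := by
      rw [f.map_adj_iff]; simp
    have h2 : f (Sum.inr i) ≠ f (Sum.inr j) := fun e => hij (Sum.inr.inj (f.injective e))
    revert h1 h2
    generalize f (Sum.inr i) = x
    generalize f (Sum.inr j) = y
    rcases x with x | x <;> rcases y with y | y <;> simp [G]
  have a := h 0 1 (by decide)
  have b := h 0 2 (by decide)
  have c := h 1 2 (by decide)
  revert a b c
  cases (f (Sum.inr 0)).isLeft <;> cases (f (Sum.inr 1)).isLeft <;>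
    cases (f (Sum.inr 2)).isLeft <;> simp

theorem result (k : ℕ) : ∃ (V : Type) (_ : Fintype V) (H : SimpleGraph V),
    ClawFree H ∧ ∀ j, KBend H j → k < j := by
  obtain ⟨m, hm⟩ := big (k + 1)
  refine ⟨_, inferInstance, G m, G_claw m, fun j ⟨P, hP, hA⟩ => ?_⟩
  by_contra hj
  choose Z hZ1 hZ2 using fun v => path_segs (P v) k ((hP v).trans (not_lt.1 hj))
  refine absurd (count m (k + 1) (fun S => Z (Sum.inr S)) (fun a => Z (Sum.inl a))
    (fun S => hZ1 _) (fun a => hZ1 _) fun S a => ?_) (not_le.2 hm)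
  refine (hA (Sum.inr S) (Sum.inl a) (by simp)).trans ?_
  constructor
  · rintro ⟨e, h1, h2⟩
    obtain ⟨d, hd, rfl⟩ := List.mem_map.1 h1
    obtain ⟨d', hd', e'⟩ := List.mem_map.1 h2
    obtain ⟨i, hi⟩ := (hZ2 _ _).2 ⟨d, hd, rfl⟩
    obtain ⟨i', hi'⟩ := (hZ2 _ _).2 ⟨d', hd', (key_eq_iff _ _).2 e'⟩
    exact ⟨i, i', _, hi, hi'⟩
  · rintro ⟨i, i', x, hi, hi'⟩
    obtain ⟨d, hd, rfl⟩ := (hZ2 _ _).1 ⟨i, hi⟩
    obtain ⟨d', hd', e'⟩ := (hZ2 _ _).1 ⟨i', hi'⟩
    exact ⟨d.edge, List.mem_map.2 ⟨d, hd, rfl⟩,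
      List.mem_map.2 ⟨d', hd', (key_eq_iff _ _).1 e'⟩⟩

end Pool.Agent.Results.MP_fe8c60_co.Unbounded
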